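import Pool.Agent.U33.AS.Asy
import Pool.Agent.U33.AS.Blocks

/-!
# MP_d5a1e1_nt: bounded depth circuits cannot sample from a counterexample

Let `h ≥ 2`, `A ⊆ ℕ`, and let `rep A h x` be the number of (unordered) representations of `x` as a sum
of `h` elements of `A`. We consider functions `F : {0, 1}^m → ℕ` of the form `F y = ∑_{j < s} c_j g_j(y)`
with arbitrary integers `c_j`, whose bits `g_j` are computed by one circuit of depth at most `d` with at
most `S` gates (NOT gates, AND and OR gates of arbitrary fan-in): `Computed m s d S F`. For example the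
`g_j` are the digits of `F y`. `entropy F` is the Shannon entropy, in bits, of `F` at a random input.

1. If `F` has all its values in `A`, then `2 rep A h x ≥ 2 ^ (H ^ 2 / (32 s t ^ 2 (24 t) ^ (2 d)))` for
   some `x`, where `H = entropy F`, for all `t ≥ 1` with `s d S (24 t) ^ d ≤ 2 ^ t`. So from a set with a
   bounded representation function one can only sample with entropy `√s (log S)^O(1)`, no matter how
   many random bits are used.
2. If every bit of `F` is found by `t` adaptive probes, then `2 rep A h x ≥ 2 ^ (H ^ 2 / (8 s t ^ 2))`.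
3. Let `F` be injective and let at least `δ 2 ^ m` of its values lie in `A`. If
   `2 d S (24 t) ^ d ≤ δ 2 ^ t`, then `2 rep A h x ≥ (4 / 3) ^ (Q m) (δ Q) ^ 2`,
   `Q = m / (128 s t ^ 2 (24 t) ^ (2 d))`.
4. For all `d` and `ε > 0` there is `c > 0` such that a set `A` with `rep A h ≤ K` contains at most
   `2 ^ (k - k ^ c)` of the first `2 ^ k` terms of any sequence of different integers which is computed
   by circuits of depth `d` and size `2 ^ (k ^ c)` with `s ≤ k ^ (2 - ε)` terms (for instance, whose terms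
   are less than `2 ^ (k ^ (2 - ε))` and whose binary digits are computed by such circuits).
5. If `A` contains the first `2 ^ k` terms, `s ≤ C k` and `S ≤ k ^ C`, then, for large `k`,
   `rep A h x ≥ 2 ^ (k / (log k) ^ (2 d + 3))` for some `x`.
6. Let `A` be an asymptotic basis of order `h` with a bounded representation function. Circuits of depth
   `d` which sample from `A ∩ [0, 2 ^ n)` so that every element has probability at most
   `|A ∩ [0, 2 ^ n)| ^ (- γ)`, with `s ≤ n / γ` terms, have at least `2 ^ (c n ^ (1 / (2 d + 2)))` gates.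
7. The exponent `2` in 4 is sharp: for every `h` there is a set `A` with `rep A h ≤ 2 ^ (h 2 ^ h)` which
   contains, for every `m`, the values of an injective function of `m` bits with `s = m ^ 2` terms, each
   of them the AND of two bits; here `F y < (h + 2) ^ (m ^ 2)`.
8. Parity gates are not allowed: there are finite sets with `rep A 2 ≤ 1` (Sidon sets) which are the
   values of an injective function with `s = 2 m` digits, each the parity of ANDs of two bits.
9. For all `B, M` there is an injective function of `m = M B` bits with `s = 2 m` terms, all bits found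
   by `B` probes, whose set of values has `rep A 2 ≤ 2 ^ M`. (2 gives `2 rep A 2 x ≥ 2 ^ (M / (16 B))`.)

Method for 1. A random restriction with few free variables keeps its proportion of the entropy, and by
the switching lemma it turns all bits into shallow decision trees. After a second random restriction
few free variables are read below other free variables; if we fix them, the entropy is still large,
and every bit depends on one variable. Now opposite points of the subcube have the same sum.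
-/

set_option autoImplicit false

namespace Pool.Agent.Results.MP_d5a1e1_nt.BoundedDepthSampling

open Finset Filter
open Pool.Agent.U33.AS
open Pool.Agent.U33.TS (rep IsAsymptoticBasis)

open Classical in
theorem result (h : ℕ) (hh : 2 ≤ h) :
    -- 1. circuits
    (∀ (A : Set ℕ) (m s d S t : ℕ) (F : (Fin m → Bool) → ℕ), 1 ≤ t → Computed m s d S F →
      (∀ y, F y ∈ A) → s * d * S * (24 * t) ^ d ≤ 2 ^ t →
      ∃ x, (∀ N, (∀ y, F y < N) → x < h * N) ∧
        (2 : ℝ) ^ (entropy F ^ 2 / (32 * s * t ^ 2 * (24 * t) ^ (2 * d))) ≤ 2 * rep A h x) ∧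
    -- 2. decision trees
    (∀ (A : Set ℕ) (m s t : ℕ) (F : (Fin m → Bool) → ℕ), 1 ≤ t → Probed m s t F →
      (∀ y, F y ∈ A) → ∃ x, (∀ N, (∀ y, F y < N) → x < h * N) ∧
        (2 : ℝ) ^ (entropy F ^ 2 / (8 * s * t ^ 2)) ≤ 2 * rep A h x) ∧
    -- 3. dense sets of inputs
    (∀ (A : Set ℕ) (m s d S t : ℕ) (F : (Fin m → Bool) → ℕ) (Q : ℝ), 1 ≤ m → 1 ≤ t →
      Computed m s d S F → Function.Injective F → 0 < (univ.filter fun y => F y ∈ A).card →
      2 * d * S * (24 * t) ^ d * 2 ^ m ≤ (univ.filter fun y => F y ∈ A).card * 2 ^ t →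
      Q = m / (128 * s * t ^ 2 * (24 * t) ^ (2 * d)) →
      ∃ x, (∀ N, (∀ y, F y < N) → x < h * N) ∧
        (4 / 3 : ℝ) ^ (Q * m) * ((univ.filter fun y => F y ∈ A).card / 2 ^ m * Q) ^ 2 ≤
          2 * rep A h x) ∧
    -- 4. sets with bounded representation functions and sequences of bounded depth
    (∀ (d : ℕ) (ε : ℝ), 0 < ε → ∃ c : ℝ, 0 < c ∧ ∀ K : ℕ, ∀ᶠ k : ℕ in atTop,
      ∀ A : Set ℕ, (∀ x, rep A h x ≤ K) → ∀ (s S : ℕ) (F : (Fin k → Bool) → ℕ),
        Function.Injective F → Computed k s d S F → (s : ℝ) ≤ (k : ℝ) ^ (2 - ε) →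
        (S : ℝ) ≤ 2 ^ ((k : ℝ) ^ c) →
        (({y | F y ∈ A} : Set (Fin k → Bool)).ncard : ℝ) ≤ 2 ^ ((k : ℝ) - (k : ℝ) ^ c)) ∧
    -- 5. growth
    (∀ d C : ℕ, ∀ᶠ k : ℕ in atTop, ∀ (A : Set ℕ) (s S : ℕ) (F : (Fin k → Bool) → ℕ),
      Function.Injective F → Computed k s d S F → s ≤ C * k → S ≤ k ^ C → (∀ y, F y ∈ A) →
      ∃ x, (∀ N, (∀ y, F y < N) → x < h * N) ∧
        (2 : ℝ) ^ ((k : ℝ) / Real.log k ^ (2 * d + 3)) ≤ rep A h x) ∧
    -- 6. counterexamples
    (∀ (A : Set ℕ) (K : ℕ), IsAsymptoticBasis A h → (∀ x, rep A h x ≤ K) →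
      ∀ (d : ℕ) (γ : ℝ), 0 < γ → ∃ c : ℝ, 0 < c ∧ ∀ᶠ n : ℕ in atTop,
        ∀ (m s S : ℕ) (F : (Fin m → Bool) → ℕ), Computed m s d S F → γ * s ≤ n →
          (∀ y, F y ∈ A ∧ F y < 2 ^ n) →
          (∀ v, (({y | F y = v} : Set (Fin m → Bool)).ncard : ℝ) *
            ((A ∩ Set.Iio (2 ^ n)).ncard : ℝ) ^ γ ≤ 2 ^ m) →
          (2 : ℝ) ^ (c * (n : ℝ) ^ (1 / (2 * (d : ℝ) + 2))) ≤ S) ∧
    -- 7. sharpness of the number of terms
    (∃ A : Set ℕ, (∀ x, rep A h x ≤ 2 ^ (h * 2 ^ h)) ∧ ∀ m : ℕ, 1 ≤ m →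
      ∃ F : (Fin m → Bool) → ℕ, Function.Injective F ∧ Computed m (m * m) 1 (m * m) F ∧
        ∀ y, F y ∈ A ∧ F y < (h + 2) ^ m ^ 2) ∧
    -- 8. parity gates
    (∀ m : ℕ, 1 ≤ m → ∃ (F : (Fin m → Bool) → ℕ) (E : Fin (m + m) → Finset (Fin m × Fin m)),
      Function.Injective F ∧ (∀ y, F y = ∑ j : Fin (m + m), 4 ^ (j : ℕ) *
        (((E j).filter fun p => y p.1 = true ∧ y p.2 = true).card % 2)) ∧
      ∀ x, rep (Set.range F) 2 x ≤ 1) ∧
    -- 9. few probes and few representations
    (∀ B M : ℕ, 1 ≤ B → ∃ F : (Fin (M * B) → Bool) → ℕ, Function.Injective F ∧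
      Probed (M * B) (M * (B + B)) B F ∧ ∀ x, rep (Set.range F) 2 x ≤ 2 ^ M) := by
  refine ⟨fun A m s d S t F ht hF hA hS => circuit_entropy hh ht F hF hA hS,
    fun A m s t F ht hF hA => probes hh ht F hF hA, ?_,
    fun d ε hε => sparse h d hh ε hε, fun d C => growth h d C hh,
    fun A K hA hK d γ hγ => lower h d hh A hA K hK γ hγ, sharp h, ?_,
    fun B M hB => blocks B M hB⟩
  · intro A m s d S t F Q hm ht hF hinj hpos hS hQ
    exact (circuit_dense hh ht hm F hF hinj hpos hS hQ).2
  · intro m hm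
    obtain ⟨F, E, h1, h2, h3⟩ := parity_example m hm
    exact ⟨F, E, h1, h2, h3⟩

end Pool.Agent.Results.MP_d5a1e1_nt.BoundedDepthSampling
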