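import Pool.Agent.U204.RFDens

/-!
# MP_d5a1e1_nt, Q1 for all orders `h ≥ 3`: at least four representations

`rep A h n` is the unordered representation function `r_{A,h}(n)`.  Let `h ≥ 3`.

1. If `A` is an asymptotic basis of order `h`, then `r_{A,h}(n) ≥ 4` for infinitely many `n`.
2. For every `K` there is `δ = δ(h, K) > 0` such that, for every asymptotic basis `A` of order `h` with
   `r_{A,h} ≤ K`, the set of the `n` with `r_{A,h}(n) ≥ 4` has lower density at least `δ`.

So a counterexample to the conjecture of Erdős and Turán has a constant `C ≥ 4` for all orders `h ≥ 3` (for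
`h = 2` even larger lower bounds are known).

Method (`Pool/Agent/U204`).  Let `f(z) = ∑ z ^ a`, `a ∈ A`, `|z| ^ 2 = y`, `X = |f(z)| ^ 2` and
`k = ⌊h / 2⌋`.  If two numbers `n₁, n₂` have two representations of order `k` each, then `n₁ + n₂ + b`, where `b` is
a sum of `h - 2 k` elements, has four representations of order `h`, unless they have common elements.  So, if
`r_{A,h} ≤ 3` outside of a sparse set, `r_{A,k} ≤ 1` outside of a sparse set, and the moment of order
`k` of `X` is at most `(1 + o(1)) k! f(y) ^ k`.  The moment of order `h - 1` is at least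
`(1 - o(1)) (h - 1)! f(y) ^ (h - 1)`.  By the convexity of the logarithm of the moments the variance of `r_{A,h}`
is at least `(2 / 3 - o(1))` times its mean, as the geometric mean of `k + 1, ..., h - 1` is at least
`2 h / 3`.  But `(r - 7 / 4) ^ 2 ≤ (9 / 16) r` for `r = 1, 2, 3`, and `9 / 16 < 2 / 3`.
-/

set_option autoImplicit false

open Filter Topology

namespace Pool.Agent.Results.MP_d5a1e1_nt.FourRepresentations

/-- `rep A h n`: the number of representations of `n` as a sum of `h` elements of `A`, where two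
representations differing only by the order of the summands are counted once -/
noncomputable def rep (A : Set ℕ) (h n : ℕ) : ℕ :=
  {s : Multiset ℕ | Multiset.card s = h ∧ (∀ a ∈ s, a ∈ A) ∧ s.sum = n}.ncard

/-- `A` is an asymptotic basis of order `h`: all large numbers are sums of `h` elements of `A` -/
def IsAsymptoticBasis (A : Set ℕ) (h : ℕ) : Prop :=
  ∃ n₀ : ℕ, ∀ n ≥ n₀, ∃ s : Multiset ℕ, Multiset.card s = h ∧ (∀ a ∈ s, a ∈ A) ∧ s.sum = n

theorem result (h : ℕ) (hh : 3 ≤ h) :
    (∀ A : Set ℕ, IsAsymptoticBasis A h → ∀ n₁ : ℕ, ∃ n ≥ n₁, 4 ≤ rep A h n) ∧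
    (∀ K : ℕ, ∃ δ : ℝ, 0 < δ ∧ ∀ A : Set ℕ, IsAsymptoticBasis A h → (∀ n, rep A h n ≤ K) →
      ∃ N₀ : ℕ, ∀ N ≥ N₀, δ * N ≤ {n : ℕ | n < N ∧ 4 ≤ rep A h n}.ncard) := by
  have hrep : ∀ A n, rep A h n = Pool.Agent.U204.RF.R A h n := fun A n =>
    Pool.Agent.U204.RF.R_eq_ncard A h n
  have hbas : ∀ A : Set ℕ, IsAsymptoticBasis A h →
      ∃ n0, ∀ n ≥ n0, 1 ≤ Pool.Agent.U204.RF.R A h n := by
    rintro A ⟨n0, hn0⟩
    refine ⟨n0, fun n hn => ?_⟩
    obtain ⟨s, hs⟩ := hn0 n hn
    exact Finset.card_pos.2 ⟨s, Pool.Agent.U204.RF.mem_Mu.2 hs⟩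
  refine ⟨fun A hA n₁ => ?_, fun K => ?_⟩
  · obtain ⟨n, hn, h4⟩ := Pool.Agent.U204.RF.four h hh (hbas A hA) n₁
    exact ⟨n, hn, by rw [hrep]; exact h4⟩
  · obtain ⟨δ, hδ, hden⟩ := Pool.Agent.U204.RF.density h hh K
    refine ⟨δ, hδ, fun A hA hK => ?_⟩
    obtain ⟨N0, hN0⟩ := hden A (hbas A hA) (fun n => by rw [← hrep]; exact hK n)
    refine ⟨N0, fun N hN => ?_⟩
    have e : {n : ℕ | n < N ∧ 4 ≤ rep A h n} =
        ↑((Finset.range N).filter fun n => 4 ≤ Pool.Agent.U204.RF.R A h n) := by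
      ext n
      simp only [Set.mem_ofPred_eq, Finset.coe_filter, Finset.mem_range, hrep]
    rw [e, Set.ncard_coe_finset]
    exact hN0 N hN

end Pool.Agent.Results.MP_d5a1e1_nt.FourRepresentations
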