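import Pool.Agent.U204.PT.Uniform

/-!
# MP_d5a1e1_nt, all orders `h ≥ 2`: random perturbations of bases, and their exact density threshold

Move every element `a` of a set `A` to `a + Z_a`, where the `Z_a ≥ 0` are independent random integers.
`rep A h n` is the unordered representation function `r_{A,h}(n)`.  Let `h ≥ 2`.

1. Let `A` be an asymptotic basis of order `h`, or more generally any set with
   `|A ∩ [1, N]| ≥ c N ^ (1 / h)` for infinitely many `N`.  If `P(Z_a = z) ≥ a ^ (- o(1))` for every fixed `z`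
   (`a ∈ A`, `a → ∞`), then almost surely `r_{A',h}` is unbounded for the perturbed set `A'`.
   So every counterexample to the conjecture of Erdős and Turán, of any order, is destroyed with probability one
   by random perturbations: of arbitrarily slowly growing size, or identically distributed with arbitrarily
   small tails, or moving only a proportion `o(1)` of the elements.  Quantitatively, there is `C = C(h, c)` such
   that for each `k ≥ 1` the condition `P(Z_a = z) ≥ a ^ (-1 / (C k))` for the `z ≤ C k ^ h` and all large `a ∈ A`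
   implies that almost surely `r_{A',h}(n) ≥ k` for infinitely many `n`; so `limsup r_{A',h} ≥ c' m ^ (1 / h)` if
   the `Z_a` are uniformly distributed on `{0, ..., m}`.
2. The exact density threshold.  Let `g > 0` be any function.  There are uniform perturbations of size
   `w(a) = a ^ o(1)` for which `r_{A',h}` is almost surely unbounded for every set `A` with
   `|A ∩ [1, N]| ≫ N ^ (1 / h) / g(N)` if and only if, for every `ε > 0`, `g(N) ≤ N ^ ε` for infinitely many `N`.
3. Below the threshold nothing remains true: for every `ε > 0` there are a set `A` with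
   `|A ∩ [1, N]| ≥ N ^ (1 / h - ε)` for all large `N` and `δ > 0`, `K` such that for EVERY choice of shifts
   `z_a ≤ a ^ δ` the perturbed set has `r_{A',h} ≤ K`.

Method (`Pool/Agent/U204/PT`).  1, 2: a window of length `O_{h,k}(1 + N / |A ∩ [1, N]| ^ h)` contains many
sums of `h` distinct elements of `A`; a counting argument (clusters or matchings for the orders `2, ..., h`) finds
`2 k` pairwise disjoint `j`-subsets, `2 ≤ j ≤ h`, with almost the same sum, and prescribed shifts of `O(k)`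
elements produce `k` representations; there are `≫ |A ∩ [1, N]|` disjoint such patterns.  3: the elements are
chosen one by one such that the sum of `λ ^ (number of elements participating in a representation of a number close
to n)` over all `n` of the given size remains small, where `λ` is a small power of `n`.
-/

set_option autoImplicit false

open Filter MeasureTheory ProbabilityTheory

namespace Pool.Agent.Results.MP_d5a1e1_nt.PerturbedBases

/-- `rep A h n`: the number of representations of `n` as a sum of `h` elements of `A`, where two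
representations differing only by the order of the summands are counted once -/
noncomputable def rep (A : Set ℕ) (h n : ℕ) : ℕ :=
  {s : Multiset ℕ | Multiset.card s = h ∧ (∀ a ∈ s, a ∈ A) ∧ s.sum = n}.ncard

/-- `A` is an asymptotic basis of order `h`: all large numbers are sums of `h` elements of `A` -/
def IsAsymptoticBasis (A : Set ℕ) (h : ℕ) : Prop :=
  ∃ n₀ : ℕ, ∀ n ≥ n₀, ∃ s : Multiset ℕ, Multiset.card s = h ∧ (∀ a ∈ s, a ∈ A) ∧ s.sum = n

/-- `|A ∩ [1, N]|` -/
noncomputable def count (A : Set ℕ) (N : ℕ) : ℕ := (A ∩ Set.Icc 1 N).ncard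

/-- the perturbed set: every element `a` of `A` is replaced by `a + z a` -/
def moved (A : Set ℕ) (z : ℕ → ℕ) : Set ℕ := {x | ∃ a ∈ A, x = a + z a}

/-- the product of the uniform probability measures on `{0, …, w n}` -/
noncomputable def unif (w : ℕ → ℕ) : Measure (∀ n, Fin (w n + 1)) :=
  Measure.infinitePi fun n => (PMF.uniformOfFintype (Fin (w n + 1))).toMeasure

theorem result (h : ℕ) (hh : 2 ≤ h) :
    -- 1. perturbations of bases and of sets of the same density
    (∀ A : Set ℕ, (IsAsymptoticBasis A h ∨ ∃ c : ℝ, 0 < c ∧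
        ∃ᶠ N : ℕ in atTop, c * (N : ℝ) ^ (1 / (h : ℝ)) ≤ count A N) →
      ∀ (Ω : Type) (_ : MeasurableSpace Ω) (μ : Measure Ω), IsProbabilityMeasure μ →
      ∀ Z : ℕ → Ω → ℕ, (∀ a, Measurable (Z a)) → iIndepFun Z μ →
        (∀ z : ℕ, ∀ ε : ℝ, 0 < ε → ∀ᶠ a : ℕ in atTop, a ∈ A →
          (a : ℝ) ^ (-ε) ≤ μ.real {ω | Z a ω = z}) →
        ∀ᵐ ω ∂μ, ∀ K n₀ : ℕ, ∃ n ≥ n₀, K ≤ rep (moved A fun a => Z a ω) h n) ∧
    -- 1'. the quantitative form
    (∀ c : ℝ, 0 < c → ∃ C : ℕ, 0 < C ∧ ∀ k : ℕ, 1 ≤ k →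
      ∀ A : Set ℕ, (∃ᶠ N : ℕ in atTop, c * (N : ℝ) ^ (1 / (h : ℝ)) ≤ count A N) →
      ∀ (Ω : Type) (_ : MeasurableSpace Ω) (μ : Measure Ω), IsProbabilityMeasure μ →
      ∀ Z : ℕ → Ω → ℕ, (∀ a, Measurable (Z a)) → iIndepFun Z μ →
        (∀ z ≤ C * k ^ h, ∀ᶠ a : ℕ in atTop, a ∈ A →
          (a : ℝ) ^ (-(1 / (C * k)) : ℝ) ≤ μ.real {ω | Z a ω = z}) →
        ∀ᵐ ω ∂μ, ∀ n₀ : ℕ, ∃ n ≥ n₀, k ≤ rep (moved A fun a => Z a ω) h n) ∧
    -- 2. the exact threshold
    (∀ g : ℕ → ℝ, (∀ N, 0 < g N) →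
      ((∀ ε : ℝ, 0 < ε → ∃ᶠ N : ℕ in atTop, g N ≤ (N : ℝ) ^ ε) ↔
        ∃ w : ℕ → ℕ, (∀ ε : ℝ, 0 < ε → ∀ᶠ a : ℕ in atTop, (w a : ℝ) ≤ (a : ℝ) ^ ε) ∧
          ∀ (A : Set ℕ) (c : ℝ), 0 < c →
            (∀ᶠ N : ℕ in atTop, c * (N : ℝ) ^ (1 / (h : ℝ)) / g N ≤ count A N) →
            ∀ᵐ x ∂(unif w), ∀ K n₀ : ℕ, ∃ n ≥ n₀, K ≤ rep (moved A fun a => (x a : ℕ)) h n)) ∧
    -- 3. below the threshold
    (∀ ε : ℝ, 0 < ε → ∃ δ : ℝ, 0 < δ ∧ ∃ (A : Set ℕ) (K : ℕ),
      (∀ᶠ N : ℕ in atTop, (N : ℝ) ^ (1 / (h : ℝ) - ε) ≤ count A N) ∧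
      ∀ z : ℕ → ℕ, (∀ a ∈ A, (z a : ℝ) ≤ (a : ℝ) ^ δ) → ∀ n, rep (moved A z) h n ≤ K) := by
  have hrep : ∀ A n, rep A h n = Pool.Agent.U204.RF.R A h n := fun A n =>
    Pool.Agent.U204.RF.R_eq_ncard A h n
  have hcount : ∀ A N, count A N = Pool.Agent.U204.PT.num A N := by
    classical
    intro A N
    unfold count Pool.Agent.U204.PT.num
    rw [← Set.ncard_coe_finset]
    congr 1
    ext a
    simp only [Set.mem_inter_iff, Set.mem_Icc, Finset.coe_filter, Finset.mem_Icc,
      Set.mem_ofPred_eq]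
    exact and_comm
  have hmoved : ∀ A z, moved A z = Pool.Agent.U204.PT.moved A z := fun A z => rfl
  simp only [hrep, hcount, hmoved]
  refine ⟨?_, ?_, ?_, ?_⟩
  · intro A hA Ω _ μ hμ Z hZ hind hlaw
    have hden : ∃ c : ℝ, 0 < c ∧ ∃ᶠ N : ℕ in atTop,
        c * (N : ℝ) ^ (1 / (h : ℝ)) ≤ Pool.Agent.U204.PT.num A N := by
      rcases hA with hA | hA
      · obtain ⟨n₀, hn₀⟩ := hA
        obtain ⟨c, hc, hc'⟩ := Pool.Agent.U204.PT.basis_dense h (by omega) A ⟨n₀, fun n hn => by
          obtain ⟨s, hs⟩ := hn₀ n hn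
          exact Finset.card_pos.2 ⟨s, Pool.Agent.U204.RF.mem_Mu.2 hs⟩⟩
        exact ⟨c, hc, hc'.frequently⟩
      · exact hA
    obtain ⟨c, hc, hc'⟩ := hden
    obtain ⟨C, hC, hlaws⟩ := Pool.Agent.U204.PT.laws h hh c hc
    rw [ae_all_iff]
    intro K
    have h1 := hlaws (K + 1) (by omega) A hc' μ Z hZ hind (fun z _ => hlaw z _ (by positivity))
    filter_upwards [h1] with ω hω n₀
    obtain ⟨n, hn, hn'⟩ := hω n₀
    exact ⟨n, hn, by omega⟩
  · intro c hc
    obtain ⟨C, hC, hlaws⟩ := Pool.Agent.U204.PT.laws h hh c hc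
    refine ⟨C, hC, fun k hk A hA Ω _ μ hμ Z hZ hind hlaw => ?_⟩
    exact hlaws k hk A hA μ Z hZ hind hlaw
  · intro g hg
    exact Pool.Agent.U204.PT.criterion h hh g hg
  · intro ε hε
    exact Pool.Agent.U204.PT.sharp h (by omega) ε hε

end Pool.Agent.Results.MP_d5a1e1_nt.PerturbedBases
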