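import Pool.Agent.U204.RFLaw

/-!
# MP_d5a1e1_nt, Q1 for all orders `h ≥ 3`: representation functions have large variance

`rep A h n` is the unordered representation function `r_{A,h}(n)`.  Let `h ≥ 3`, let `A` be an infinite
set of natural numbers and `γ h = ((h - 1)!) ^ (1 / (h - 2)) / h`; so `γ 3 = 2/3`, `γ 4 = 0.612...`,
`γ 5 = 0.577...`, and `γ h` decreases to `1 / e`.

1. For all real `λ` and all `c < γ h`, if `y < 1` is close enough to `1`,
   `∑ (r_{A,h}(n) - λ) ^ 2 y ^ n ≥ c ∑ r_{A,h}(n) y ^ n`.
2. Hence, if `k ≤ r_{A,h}(n) ≤ K` for all large `n`, then `√K - √k ≥ √(γ h)`.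

In particular (Dirac's theorem for all orders) `r_{A,h}` is not eventually constant; it is not even
equal to a constant outside of a set of density zero if it is bounded.  For `h = 2` statements of this
kind are due to Dirac (1951), Erdős and Fuchs (1956) and Sándor (2008).

Method (`Pool/Agent/U204`).  Let `f(z) = ∑ z ^ a`, `a ∈ A`, `|z| ^ 2 = y`, and `X = |f(z)| ^ 2`.  By Parseval the
mean of `X` on the circle is `f(y)`, and the mean of `X ^ j` is at least `(1 - o(1)) j! f(y) ^ j`, as the
ordered representation function of order `j` is at least `j!` where it does not vanish, up to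
representations with repetitions.  The last bound for `j = h - 1` and the first equation are not
influenced by the neighbourhood of `z = y ^ (1/2)`.  Outside of it `f ^ h` is `h!` times the generating
function of `r_{A,h} - λ`, up to `O(1)` and the repetitions.  So the convexity of the logarithm of the
moments of `X` gives a lower bound for the mean square of `r_{A,h} - λ`.
-/

set_option autoImplicit false

open Filter Topology

namespace Pool.Agent.Results.MP_d5a1e1_nt.VarianceAllOrders

/-- `rep A h n`: the number of representations of `n` as a sum of `h` elements of `A`, where two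
representations differing only by the order of the summands are counted once -/
noncomputable def rep (A : Set ℕ) (h n : ℕ) : ℕ :=
  {s : Multiset ℕ | Multiset.card s = h ∧ (∀ a ∈ s, a ∈ A) ∧ s.sum = n}.ncard

/-- the constant `((h - 1)!) ^ (1 / (h - 2)) / h` -/
noncomputable def γ (h : ℕ) : ℝ := ((h - 1).factorial : ℝ) ^ (1 / ((h : ℝ) - 2)) / h

theorem result (h : ℕ) (hh : 3 ≤ h) (A : Set ℕ) (hA : A.Infinite) :
    (∀ lam c : ℝ, c < γ h → ∀ᶠ y in 𝓝[<] (1 : ℝ),
      c * ∑' n : ℕ, (rep A h n : ℝ) * y ^ n ≤ ∑' n : ℕ, ((rep A h n : ℝ) - lam) ^ 2 * y ^ n) ∧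
    (∀ k K N : ℕ, (∀ n ≥ N, k ≤ rep A h n ∧ rep A h n ≤ K) →
      Real.sqrt (γ h) ≤ Real.sqrt K - Real.sqrt k) := by
  have hrep : ∀ n, rep A h n = Pool.Agent.U204.RF.R A h n := fun n =>
    Pool.Agent.U204.RF.R_eq_ncard A h n
  have hγ : γ h = Pool.Agent.U204.RF.cst h := by
    unfold γ Pool.Agent.U204.RF.cst
    rw [if_neg (by omega)]
  simp only [hrep, hγ]
  exact ⟨fun lam c hc => Pool.Agent.U204.RF.law_eventually h (by omega) hA lam hc,
    fun k K N hb => Pool.Agent.U204.RF.sqrt_gap h (by omega) hA hb⟩

end Pool.Agent.Results.MP_d5a1e1_nt.VarianceAllOrders
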